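import Pool.Agent.SZG.StmtsE
import Pool.Agent.SZG.StmtsD2

/-! Squad SZG, row DSV: minors at a place of `S`. -/

set_option autoImplicit false

namespace Pool.Agent.SZG.H10

open scoped BigOperators
open Pool.Agent.THS

theorem dsv_nv {K ι : Type} [Field K] [Finite ι] (v : AbsoluteValue K ℝ) (y : ι → K) (hy : y ≠ 0) :
    0 < nv v y := by
  obtain ⟨i, hi⟩ := Function.ne_iff.mp hy
  have h1 : 0 < v (y i) := v.pos hi
  exact h1.trans_le (le_ciSup (f := fun j => v (y j)) (Set.finite_range _).bddAbove i)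

theorem dsv_mem {g : ℕ} {L0 : AddSubgroup (Idx g)} {l : ℕ} (β δ : Idx g) (n : ℤ)
    (h1 : (l : ℤ) • β ∈ L0) (h2 : (l : ℤ) • δ ∈ L0) :
    l • ((2 : ℤ) • β + (2 * n) • δ) ∈ L0 := by
  have e : l • ((2 : ℤ) • β + (2 * n) • δ) = (2 : ℤ) • ((l : ℤ) • β) + (2 * n) • ((l : ℤ) • δ) := by
    rw [← natCast_zsmul, smul_add, smul_comm (l : ℤ) (2 : ℤ) β, smul_comm (l : ℤ) (2 * n) δ]
  rw [e]
  exact L0.add_mem (L0.zsmul_mem h1 _) (L0.zsmul_mem h2 _)

theorem dsv (lor : LorStmt) (qcs : QcsStmt) (mpp : MppStmt) (wxc : WxcStmt) (mnp : MnpStmt) :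
    DsvStmt := by
  intro g L
  obtain ⟨n, hn⟩ := lor g L
  refine ⟨n, ?_⟩
  intro K _ v θ ρ E L0 c e s T x W X l p q hl ho ρ0 ρ1 hρ hloc hpq hper R r k
  obtain ⟨cl, rep, nn, hrep, hq⟩ := qcs g l p q hl ho hpq
  have hδ : (l : ℤ) • ((0, p, q) : Idx g) ∈ L0 := by
    have h := hper p q
    have e : (l : ℤ) • ((0, p, q) : Idx g) =
        ((0, fun i => (l : ℤ) * p i, fun i => (l : ℤ) * q i) : Idx g) := by
      ext i
      · simp
      · simp
      · simp
    rw [e]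
    exact h
  have hb : ∀ t, (l : ℤ) • rep t ∈ L0 := by
    intro t
    have h := hper (rep t).2.1 (rep t).2.2
    have e : (l : ℤ) • rep t =
        ((0, fun i => (l : ℤ) * (rep t).2.1 i, fun i => (l : ℤ) * (rep t).2.2 i) : Idx g) := by
      ext i
      · simp [hrep t]
      · simp
      · simp
    rw [e]
    exact h
  have hloc2 := fun (t : Fin (l ^ (2 * g - 1))) (a : Ch g) =>
    hn K (Idx g) v θ ρ E L0 c e s T x W X (Zz g) (0, p, q) l ρ0 ρ1 hρ hloc hδ (rep t) (hb t) a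
  choose P Q hPQ hE using hloc2
  choose PP QQ hdec using hq
  obtain ⟨-, -, -, -, -, -, -, wper⟩ := wxc K (Idx g) v L0 c e W X hloc.wx
  have hT0 := dsv_nv v (T 0) (hloc.qs.T0 0)
  have hm : ∀ b : Bx g l,
      ((0, fun i => (l : ℤ) * PP b i, fun i => (l : ℤ) * QQ b i) : Idx g) ∈ L0 :=
    fun b => hper _ _
  have key : ∀ (b : Bx g l), ∃ y : K,
      W (lft b) = v y * W ((2 : ℤ) • rep (cl b) + (2 * nn b) • ((0, p, q) : Idx g)) ∧
      ∀ (k : ℕ) (a : Ch g), Mp l e T (Zz g) (lft b) k a =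
        y * Mp l e T (Zz g) ((2 : ℤ) • rep (cl b) + (2 * nn b) • ((0, p, q) : Idx g)) k a := by
    intro b
    refine ⟨c (0, fun i => (l : ℤ) * PP b i, fun i => (l : ℤ) * QQ b i) *
      e (0, fun i => (l : ℤ) * PP b i, fun i => (l : ℤ) * QQ b i)
        ((2 : ℤ) • rep (cl b) + (2 * nn b) • ((0, p, q) : Idx g)), ?_, ?_⟩
    · rw [hdec b, wper _ (hm b), map_mul]
    · intro k a
      rw [hdec b]
      exact mpp K (Idx g) g E L0 c e s T x l (Zz g) _ _ hloc.qs
        (dsv_mem (rep (cl b)) (0, p, q) (nn b) (hb _) hδ) (hm b) k a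
  choose y hyW hyM using key
  have fin := mnp K v (Fin R) (Fin (l ^ (2 * g - 1)) × Ch g) n
    (fun i => (cl (r i).2, (r i).1)) (IM l e T r k)
    (fun i m => y (r i).2 * Q (cl (r i).2) (r i).1 m (nn (r i).2))
    (fun ta m j => P ta.1 ta.2 m (k j))
    (fun i => W (lft (r i).2)) (fun j => nv v (T 0) * W ((l * k j) • Zz g)) (θ ^ L)
    hloc.na (pow_nonneg hloc.th0.le L) (pow_le_one₀ hloc.th0.le hloc.th1.le)
    (fun i => hloc.wx.pos _) (fun j => mul_pos hT0 (hloc.wx.pos _)) ?_ ?_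
  · rw [Fintype.card_fin, Fintype.card_prod, Fintype.card_fin, Fintype.card_fun, Fintype.card_fin,
      ZMod.card, mul_comm (l ^ (2 * g - 1)) (2 ^ g)] at fin
    exact fin
  · intro i m j
    rw [map_mul, mul_assoc, hyW (r i).2, mul_assoc]
    exact mul_le_mul_of_nonneg_left (hPQ _ _ m (k j) (nn (r i).2)) (v.nonneg _)
  · intro i j
    have e1 : IM l e T r k i j - ∑ m, y (r i).2 * Q (cl (r i).2) (r i).1 m (nn (r i).2) *
        P (cl (r i).2) (r i).1 m (k j) =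
        y (r i).2 * (Mp l e T (Zz g) ((2 : ℤ) • rep (cl (r i).2) +
          (2 * nn (r i).2) • ((0, p, q) : Idx g)) (k j) (r i).1 -
          ∑ m, Q (cl (r i).2) (r i).1 m (nn (r i).2) * P (cl (r i).2) (r i).1 m (k j)) := by
      have e2 : IM l e T r k i j = Mp l e T (Zz g) (lft (r i).2) (k j) (r i).1 := rfl
      rw [e2, hyM, mul_sub, Finset.mul_sum]
      congr 1
      exact Finset.sum_congr rfl fun m _ => mul_assoc _ _ _
    show v (IM l e T r k i j - ∑ m, y (r i).2 * Q (cl (r i).2) (r i).1 m (nn (r i).2) *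
        P (cl (r i).2) (r i).1 m (k j)) ≤
        θ ^ L * (W (lft (r i).2) * (nv v (T 0) * W ((l * k j) • Zz g)))
    rw [e1, map_mul, hyW (r i).2]
    calc v (y (r i).2) * v (Mp l e T (Zz g) ((2 : ℤ) • rep (cl (r i).2) +
          (2 * nn (r i).2) • ((0, p, q) : Idx g)) (k j) (r i).1 -
          ∑ m, Q (cl (r i).2) (r i).1 m (nn (r i).2) * P (cl (r i).2) (r i).1 m (k j)) ≤
        v (y (r i).2) * (θ ^ L * (W ((2 : ℤ) • rep (cl (r i).2) +
          (2 * nn (r i).2) • ((0, p, q) : Idx g)) * (nv v (T 0) * W ((l * k j) • Zz g)))) :=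
          mul_le_mul_of_nonneg_left (hE _ _ (k j) (nn (r i).2)) (v.nonneg _)
      _ = _ := by ring

end Pool.Agent.SZG.H10
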